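import Pool.Agent.Q295.YM.Main

/-!
# Lattice Yang–Mills theory: thermodynamic limit and mass gap along the electric axis

Wilson's lattice gauge theory on `ℤ × ℤ^D` (time and space), gauge group `G` an arbitrary closed
subgroup of `U(N)`, with the anisotropic weight
`exp (βe ∑ Re Tr U_p + βm ∑ Re Tr U_p)`, the first sum over the plaquettes with a side in the time
direction (electric), the second one over the plaquettes in space (magnetic). For *every* electric
coupling `βe ≥ 0`, however large, and all magnetic couplings with `|βm| κ(βe) ≤ c` the theories in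
finite regions with free boundary conditions converge to a theory in the infinite volume, which does
not depend on the sequence of regions; the truncated correlations of gauge invariant observables
decay exponentially in space and time, uniformly in the volume, and the infinite volume theory has a
mass gap. If `G` is connected then `κ(βe) = 1 + βe`: the theorem then is
uniform in the Hamiltonian (Kogut–Susskind) limit `βe = 1 / (g² ε)`, `βm = ε / g²`, `ε → 0`, of the
strongly coupled theory, `c g⁴ ≥ 1 + ε g²`, with the lower bound `m g² / (1 + ε g²)` for the gap in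
physical units. (In general `κ(βe) ≤ exp (C (1 + βe))`.)
-/

namespace Pool.Agent.Results.MP_7f377f_mp.ElectricAxis

open MeasureTheory Filter
open scoped Topology

/-- The unitary group `U(N)`. -/
abbrev UU (N : ℕ) := Matrix.unitaryGroup (Fin N) ℂ

/-- The sites of the lattice `ℤ × ℤ^D`: pairs (time, position in space). -/
abbrev Site (D : ℕ) : Type := ℤ × (Fin D → ℤ)

/-- The links of the lattice: `(x, none)` is the link which starts at `x` in the time direction,
`(x, some j)` the one which starts at `x` in the `j`-th direction of space. -/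
abbrev Link (D : ℕ) : Type := Site D × Option (Fin D)

section lattice

variable {D : ℕ}

/-- The end point of the link `(x, i)`. -/
def target (x : Site D) : Option (Fin D) → Site D
  | none => (x.1 + 1, x.2)
  | some j => (x.1, x.2 + Pi.single j 1)

/-- The distance of two points of space in the maximum norm. -/
def sdist (x y : Fin D → ℤ) : ℕ := Finset.univ.sup fun i => (x i - y i).natAbs

/-- The link `l` lies in the region `[a, b] × Λ` (both end points do). -/
def Inside (a b : ℤ) (Λ : Finset (Fin D → ℤ)) (l : Link D) : Prop :=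
  ((a ≤ l.1.1 ∧ l.1.1 ≤ b) ∧ l.1.2 ∈ Λ) ∧
    ((a ≤ (target l.1 l.2).1 ∧ (target l.1 l.2).1 ≤ b) ∧ (target l.1 l.2).2 ∈ Λ)

/-- The links of `A` lie in the time interval `[p, q]`. -/
def InTime (p q : ℤ) (A : Finset (Link D)) : Prop := ∀ l ∈ A, p ≤ l.1.1 ∧ (target l.1 l.2).1 ≤ q

/-- All points of space at a distance `≤ r` from (an end point of) a link of `A` belong to `Λ`. -/
def Deep (r : ℕ) (Λ : Finset (Fin D → ℤ)) (A : Finset (Link D)) : Prop :=
  ∀ l ∈ A, (∀ z, sdist l.1.2 z ≤ r → z ∈ Λ) ∧ (∀ z, sdist (target l.1 l.2).2 z ≤ r → z ∈ Λ)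

/-- The positions of two sets of links: the links of `A₁` start in the time interval `[p, p + h]`,
those of `A₂` start at a distance `≥ r` in space and, unless `τ = 0`, at times `≥ p + h + τ`. -/
structure Apart (A₁ A₂ : Finset (Link D)) (p : ℤ) (h τ r : ℕ) : Prop where
  first : ∀ l ∈ A₁, p ≤ l.1.1 ∧ l.1.1 ≤ p + h
  second : τ = 0 ∨ ∀ l ∈ A₂, p + h + τ ≤ l.1.1
  space : ∀ l ∈ A₁, ∀ l' ∈ A₂, r ≤ sdist l.1.2 l'.1.2

/-- The links of the space lattice which belong to `Λ`: pairs (starting point, direction). -/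
def spaceLinks (Λ : Finset (Fin D → ℤ)) : Finset ((Fin D → ℤ) × Fin D) :=
  (Λ ×ˢ Finset.univ).filter fun e => e.1 + Pi.single e.2 1 ∈ Λ

/-- The plaquettes of the space lattice whose four corners belong to `Λ`: triples (corner, first
direction, second direction). -/
def spacePlaquettes (Λ : Finset (Fin D → ℤ)) : Finset ((Fin D → ℤ) × Fin D × Fin D) :=
  (Λ ×ˢ Finset.univ ×ˢ Finset.univ).filter fun p => p.2.1 < p.2.2 ∧
    p.1 + Pi.single p.2.1 1 ∈ Λ ∧ p.1 + Pi.single p.2.2 1 ∈ Λ ∧
    p.1 + Pi.single p.2.1 1 + Pi.single p.2.2 1 ∈ Λ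

/-- The reflection of the link `l` in the hyperplane of the time zero. -/
def mirror (l : Link D) : Link D :=
  if l.2 = none then ((-l.1.1 - 1, l.1.2), none) else ((-l.1.1, l.1.2), l.2)

end lattice

section

variable {N D : ℕ} {G : Subgroup (UU N)}

/-- Gauge transformation of a configuration. -/
def gauge (γ : Site D → G) (U : Link D → G) : Link D → G :=
  fun l => γ l.1 * U l * (γ (target l.1 l.2))⁻¹

/-- The plaquette variable of the plaquette with the corner `x` and the directions `i`, `j`. -/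
def plaquette (U : Link D → G) (x : Site D) (i j : Option (Fin D)) : G :=
  U (x, i) * U (target x i, j) * (U (target x j, i))⁻¹ * (U (x, j))⁻¹

/-- `Re Tr U_p`. -/
noncomputable def reTr (U : Link D → G) (x : Site D) (i j : Option (Fin D)) : ℝ :=
  (Matrix.trace ((plaquette U x i j : UU N) : Matrix (Fin N) (Fin N) ℂ)).re

/-- The sum of `Re Tr U_p` over the plaquettes with a side in the time direction (electric
plaquettes) whose four corners belong to the region `[a, b] × Λ`. -/
noncomputable def electric (a b : ℤ) (Λ : Finset (Fin D → ℤ)) (U : Link D → G) : ℝ :=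
  ∑ t ∈ Finset.Ico a b, ∑ e ∈ spaceLinks Λ, reTr U (t, e.1) none (some e.2)

/-- The sum of `Re Tr U_p` over the plaquettes in space (magnetic plaquettes) whose four corners
belong to the region `[a, b] × Λ`. -/
noncomputable def magnetic (a b : ℤ) (Λ : Finset (Fin D → ℤ)) (U : Link D → G) : ℝ :=
  ∑ t ∈ Finset.Icc a b, ∑ p ∈ spacePlaquettes Λ, reTr U (t, p.1) (some p.2.1) (some p.2.2)

/-- The exponent of the anisotropic Wilson weight in the region `[a, b] × Λ` with free boundary
conditions. -/
noncomputable def wilson (βe βm : ℝ) (a b : ℤ) (Λ : Finset (Fin D → ℤ)) (U : Link D → G) : ℝ :=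
  βe * electric a b Λ U + βm * magnetic a b Λ U

/-- The expectation of `F` in the theory in the region `[a, b] × Λ`; `μ` is the Haar measure. -/
noncomputable def expect [MeasurableSpace G] (μ : Measure G) [IsProbabilityMeasure μ]
    (βe βm : ℝ) (a b : ℤ) (Λ : Finset (Fin D → ℤ)) (F : (Link D → G) → ℝ) : ℝ :=
  (∫ U, F U * Real.exp (wilson βe βm a b Λ U) ∂(Measure.infinitePi fun _ : Link D => μ)) /
    ∫ U, Real.exp (wilson βe βm a b Λ U) ∂(Measure.infinitePi fun _ : Link D => μ)

/-- `F` is gauge invariant and depends only on the link variables of the finite set `A`. -/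
structure IsObservable (F : (Link D → G) → ℝ) (A : Finset (Link D)) : Prop where
  gauge_inv : ∀ γ U, F (gauge γ U) = F U
  loc : ∀ U U' : Link D → G, (∀ l ∈ A, U l = U' l) → F U = F U'

/-- The configuration translated by `v`. -/
def shift (v : Site D) (U : Link D → G) : Link D → G := fun l => U (l.1 + v, l.2)

/-- The configuration reflected in the hyperplane of the time zero; the links in the time direction
change their orientation. -/
def reflect (U : Link D → G) : Link D → G :=
  fun l => if l.2 = none then (U (mirror l))⁻¹ else U (mirror l)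

/-- Exponential clustering in all regions `[a, b] × Λ`: the truncated correlation of two observables
`F₁`, `F₂` bounded by `1`, supported in sets `A₁`, `A₂` of links of the region which are apart as in
`Apart A₁ A₂ p h τ r`, is at most `C (κ + h) |A₁| exp (- (r + m τ / κ))`. -/
def RegionClustering [MeasurableSpace G] (μ : Measure G) [IsProbabilityMeasure μ] (D : ℕ)
    (βe βm κ m C : ℝ) : Prop :=
  ∀ (a b : ℤ) (Λ : Finset (Fin D → ℤ)) (F₁ F₂ : (Link D → G) → ℝ) (A₁ A₂ : Finset (Link D)),
    a ≤ b → IsObservable F₁ A₁ → IsObservable F₂ A₂ → Measurable F₁ → Measurable F₂ →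
    (∀ U, |F₁ U| ≤ 1) → (∀ U, |F₂ U| ≤ 1) →
    (∀ l ∈ A₁, Inside a b Λ l) → (∀ l ∈ A₂, Inside a b Λ l) →
    ∀ (p : ℤ) (h τ r : ℕ), a ≤ p → Apart A₁ A₂ p h τ r →
    |expect μ βe βm a b Λ (fun U => F₁ U * F₂ U) -
      expect μ βe βm a b Λ F₁ * expect μ βe βm a b Λ F₂| ≤
      C * (κ + h) * A₁.card * Real.exp (-(r + m * τ / κ))

/-- `ν` is the limit of the theories in finite regions: the expectation of every continuous
observable `F` (supported in `A`, `|F| ≤ 1`) in every region differs from `∫ F dν` by at most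
`C (κ + h) |A| (exp (- m τ / κ) + exp (- r))`, where `A` is in the time interval `[p, p + h]` and
`τ`, `r` are the distances of `A` to the boundary of the region in time and in space. -/
def IsLimit [MeasurableSpace G] (μ : Measure G) [IsProbabilityMeasure μ] (βe βm κ m C : ℝ)
    (ν : Measure (Link D → G)) : Prop :=
  ∀ (F : (Link D → G) → ℝ) (A : Finset (Link D)), IsObservable F A → Continuous F →
    (∀ U, |F U| ≤ 1) → ∀ (p : ℤ) (h τ r : ℕ) (a b : ℤ) (Λ : Finset (Fin D → ℤ)),
    InTime p (p + h) A → Deep r Λ A → a + τ ≤ p → p + h + τ ≤ b →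
    |expect μ βe βm a b Λ F - ∫ U, F U ∂ν| ≤
      C * (κ + h) * A.card * (Real.exp (-(m * τ / κ)) + Real.exp (-r))

/-- `ν` is invariant under all translations (on continuous observables). -/
def TranslationInvariant [MeasurableSpace G] (ν : Measure (Link D → G)) : Prop :=
  ∀ (F : (Link D → G) → ℝ) (A : Finset (Link D)), IsObservable F A → Continuous F →
    ∀ v : Site D, ∫ U, F (shift v U) ∂ν = ∫ U, F U ∂ν

/-- `ν` is reflection positive: `⟨θF · F⟩ ≥ 0` for the continuous observables `F` supported at times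
`≥ 0`. -/
def ReflectionPositive [MeasurableSpace G] (ν : Measure (Link D → G)) : Prop :=
  ∀ (F : (Link D → G) → ℝ) (A : Finset (Link D)), IsObservable F A → Continuous F →
    (∀ l ∈ A, 0 ≤ l.1.1) → 0 ≤ ∫ U, F (reflect U) * F U ∂ν

/-- Exponential clustering of `ν`: the bound of `RegionClustering` for the truncated correlations in
`ν` of continuous observables. -/
def Clustering [MeasurableSpace G] (κ m C : ℝ) (ν : Measure (Link D → G)) : Prop :=
  ∀ (F₁ F₂ : (Link D → G) → ℝ) (A₁ A₂ : Finset (Link D)), IsObservable F₁ A₁ →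
    IsObservable F₂ A₂ → Continuous F₁ → Continuous F₂ → (∀ U, |F₁ U| ≤ 1) →
    (∀ U, |F₂ U| ≤ 1) → ∀ (p : ℤ) (h τ r : ℕ), Apart A₁ A₂ p h τ r →
    |∫ U, F₁ U * F₂ U ∂ν - (∫ U, F₁ U ∂ν) * ∫ U, F₂ U ∂ν| ≤
      C * (κ + h) * A₁.card * Real.exp (-(r + m * τ / κ))

/-- The transfer matrix of `ν` has a mass gap at least `δ`:
`|⟨θF · τ_t F⟩ - ⟨F⟩²| ≤ exp (- δ t) (⟨θF · F⟩ - ⟨F⟩²)` for every continuous observable `F` supported
at times `≥ 0`, that is `‖T ^ t (1 - |Ω⟩⟨Ω|)‖ ≤ exp (- δ t)` on the physical Hilbert space. -/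
def MassGap [MeasurableSpace G] (δ : ℝ) (ν : Measure (Link D → G)) : Prop :=
  ∀ (F : (Link D → G) → ℝ) (A : Finset (Link D)), IsObservable F A → Continuous F →
    (∀ l ∈ A, 0 ≤ l.1.1) → ∀ t : ℕ,
    |∫ U, F (reflect U) * F (shift ((t : ℤ), 0) U) ∂ν - (∫ U, F U ∂ν) ^ 2| ≤
      Real.exp (-(δ * t)) * (∫ U, F (reflect U) * F U ∂ν - (∫ U, F U ∂ν) ^ 2)

end

section bridge

open Pool.Agent.Q295 Pool.Agent.H906R3

variable {N D : ℕ} {G : Subgroup (UU N)}

lemma target_eq : (target : Site D → Option (Fin D) → Site D) = YM.tip := by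
  funext x i
  cases i <;> rfl

lemma gauge_eq : (gauge : (Site D → G) → (Link D → G) → Link D → G) = YM.gtr := by
  funext γ U l
  unfold gauge YM.gtr
  rw [target_eq]

lemma wilson_eq (βe βm : ℝ) (a b : ℤ) (Λ : Finset (Fin D → ℤ)) (U : Link D → G) :
    wilson βe βm a b Λ U = YM.act YM.chi βe βm a b Λ U := by
  unfold wilson electric magnetic reTr plaquette
  rw [target_eq]
  rfl

lemma expect_eq [MeasurableSpace G] (μ : Measure G) [IsProbabilityMeasure μ] (βe βm : ℝ)
    (a b : ℤ) (Λ : Finset (Fin D → ℤ)) (F : (Link D → G) → ℝ) :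
    expect μ βe βm a b Λ F = YM.Ex μ YM.chi βe βm a b Λ F := by
  unfold expect YM.Ex YM.ExW
  simp only [wilson_eq]

lemma inside_iff {a b : ℤ} {Λ : Finset (Fin D → ℤ)} {l : Link D} :
    Inside a b Λ l ↔ YM.InR a b Λ l := by
  unfold Inside
  rw [target_eq]
  rfl

lemma inTime_iff {p q : ℤ} {A : Finset (Link D)} : InTime p q A ↔ YM.Win p q A := by
  unfold InTime
  rw [target_eq]
  rfl

lemma deep_iff {r : ℕ} {Λ : Finset (Fin D → ℤ)} {A : Finset (Link D)} :
    Deep r Λ A ↔ YM.Mar r Λ A := by
  unfold Deep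
  rw [target_eq]
  rfl

lemma ob [MeasurableSpace G] {F : (Link D → G) → ℝ} {A : Finset (Link D)}
    (h : IsObservable F A) (hm : Measurable F) (h1 : ∀ U, |F U| ≤ 1) : YM.Ob F A :=
  ⟨hm, h1, fun γ U => by rw [← gauge_eq]; exact h.gauge_inv γ U, h.loc⟩

lemma lo {F : (Link D → G) → ℝ} {A : Finset (Link D)} (h : IsObservable F A)
    (hc : Continuous F) : YM.Lo F A :=
  ⟨hc, fun γ U => by rw [← gauge_eq]; exact h.gauge_inv γ U, h.loc⟩

/-- A Haar probability measure is invariant under right multiplications. -/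
lemma right_inv {H : Type*} [Group H] [TopologicalSpace H] [IsTopologicalGroup H]
    [CompactSpace H] [MeasurableSpace H] [BorelSpace H] (μ : Measure H)
    [IsProbabilityMeasure μ] [μ.IsHaarMeasure] : μ.IsMulRightInvariant := by
  refine ⟨fun g => ?_⟩
  have h1 : IsProbabilityMeasure (Measure.map (fun x => x * g) μ) :=
    Measure.isProbabilityMeasure_map (measurable_mul_const g).aemeasurable
  exact Measure.isHaarMeasure_eq_of_isProbabilityMeasure _ _

/-- A Haar probability measure is invariant under the inversion. -/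
lemma inv_inv' {H : Type*} [Group H] [TopologicalSpace H] [IsTopologicalGroup H]
    [CompactSpace H] [MeasurableSpace H] [BorelSpace H] (μ : Measure H)
    [IsProbabilityMeasure μ] [μ.IsHaarMeasure] : μ.IsInvInvariant := by
  have hr := right_inv μ
  refine ⟨?_⟩
  have h1 : IsProbabilityMeasure μ.inv :=
    Measure.isProbabilityMeasure_map measurable_inv.aemeasurable
  have h2 : μ.inv.IsMulLeftInvariant := inferInstance
  have h3 : μ.inv.IsHaarMeasure :=
    Measure.isHaarMeasure_of_isCompact_nonempty_interior μ.inv Set.univ isCompact_univ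
      (by simp) (by simp) (by simp)
  exact Measure.isHaarMeasure_eq_of_isProbabilityMeasure _ _

end bridge

/-- **Thermodynamic limit and mass gap along the electric axis.** Let `G` be a closed subgroup of
`U(N)`. There are `κ ≥ 1` and constants `c, m, C > 0`, where `κ(βe) = 1 + βe` if `G` is connected and
`κ(βe) ≤ exp (C (1 + βe))` in general, such that for all `βe ≥ 0` and `|βm| κ(βe) ≤ c`:

1. the truncated correlations of gauge invariant observables decay exponentially in space and time,
uniformly in the region;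

there is a probability measure `ν` on the configurations of the infinite lattice such that

2. the theories in any sequence of regions which exhausts the lattice converge to `ν`, at an
exponential rate;

3. `ν` is invariant under all translations (on observables);

4. `ν` is reflection positive;

5. the truncated correlations in `ν` decay as in 1;

6. the Hamiltonian `- log T` of `ν` has a mass gap `≥ m / κ`. -/
theorem result {N : ℕ} (D : ℕ) (G : Subgroup (UU N)) (hG : IsClosed (G : Set (UU N)))
    [MeasurableSpace G] [BorelSpace G] (μ : Measure G) [IsProbabilityMeasure μ]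
    [μ.IsHaarMeasure] :
    ∃ (κ : ℝ → ℝ) (c m C : ℝ), 0 < c ∧ 0 < m ∧ 0 < C ∧
      (∀ βe, 0 ≤ βe → 1 ≤ κ βe ∧ κ βe ≤ Real.exp (C * (1 + βe))) ∧
      (ConnectedSpace G → ∀ βe, 0 ≤ βe → κ βe = 1 + βe) ∧
      ∀ βe βm : ℝ, 0 ≤ βe → |βm| * κ βe ≤ c →
        RegionClustering μ D βe βm (κ βe) m C ∧
        ∃ ν : Measure (Link D → G), IsProbabilityMeasure ν ∧
          IsLimit μ βe βm (κ βe) m C ν ∧ TranslationInvariant ν ∧ ReflectionPositive ν ∧
          Clustering (κ βe) m C ν ∧ MassGap (m / κ βe) ν := by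
  classical
  have : CompactSpace G := by
    have h1 : IsCompact (G : Set (UU N)) := hG.isCompact
    exact isCompact_iff_compactSpace.1 h1
  have h00 : SecondCountableTopology (UU N) := TopologicalSpace.Subtype.secondCountableTopology _
  have : SecondCountableTopology G := TopologicalSpace.Subtype.secondCountableTopology _
  have := right_inv μ
  have := inv_inv' μ
  obtain ⟨κ, C0, hC0, hκ1, hκ2, hmix⟩ := Pool.Agent.Q295.YM.exists_kappa (μ := μ) hG
  refine ⟨κ, 1 / (128000 * D * N * C0 + 1), 1 / (20 * C0), 12 * (1 + 100 * C0) + C0,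
    by positivity, by positivity, by positivity, fun βe hβ => ⟨(hκ1 βe hβ).1,
      (hκ1 βe hβ).2.trans (Real.exp_le_exp.2 ?_)⟩, hκ2, fun βe βm hβe hβm => ?_⟩
  · refine mul_le_mul_of_nonneg_right ?_ (by linarith)
    have : 0 ≤ 12 * (1 + 100 * C0) := by positivity
    linarith
  obtain ⟨ms, hms1, hms2, hum⟩ := hmix βe hβe
  have hκ := (hκ1 βe hβe).1
  have hκ0 : 0 < κ βe := by linarith
  have hms0 : (0 : ℝ) < ms := by exact_mod_cast hms1
  have hDN : (0 : ℝ) ≤ 128000 * D * N := by positivity
  have hsm : 128000 * (D : ℝ) * N * (|βm| * ms) ≤ 1 := by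
    have h1 : |βm| * ms ≤ |βm| * (C0 * κ βe) := mul_le_mul_of_nonneg_left hms2 (abs_nonneg _)
    have h2 : |βm| * (C0 * κ βe) ≤ C0 * (1 / (128000 * D * N * C0 + 1)) := by
      have := mul_le_mul_of_nonneg_left hβm hC0.le
      linarith
    have h3 := mul_le_mul_of_nonneg_left (h1.trans h2) hDN
    refine h3.trans ?_
    have h4 : 128000 * (D : ℝ) * N * (C0 * (1 / (128000 * D * N * C0 + 1))) =
        (128000 * D * N * C0) / (128000 * D * N * C0 + 1) := by ring
    rw [h4, div_le_one (by positivity)]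
    linarith
  obtain ⟨cc, hP⟩ := Pool.Agent.Q295.YM.mk_par D hms1 hum hsm
  -- the rates
  have hrate : ∀ τ : ℕ, Pool.Agent.Q295.YM.qq ms ^ τ ≤
      Real.exp (-(1 / (20 * C0) * τ / κ βe)) := by
    intro τ
    rw [Pool.Agent.Q295.YM.qq_pow]
    refine Real.exp_le_exp.2 (neg_le_neg ?_)
    have e1 : 1 / (20 * C0) * (τ : ℝ) / κ βe = τ / (20 * (C0 * κ βe)) := by
      field_simp
    rw [e1]
    exact div_le_div_of_nonneg_left (by positivity) (by positivity) (by linarith)
  have hpre : ∀ h : ℕ, (h : ℝ) + 1 + 100 * ms ≤ (1 + 100 * C0) * (κ βe + h) := by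
    intro h
    have h1 : (0 : ℝ) ≤ h := Nat.cast_nonneg h
    nlinarith [mul_nonneg hC0.le h1]
  have hcov : ∀ (h τ r n : ℕ), 12 * ((h + 1 + 100 * (ms : ℝ)) * Pool.Agent.Q295.YM.qq ms ^ τ) *
      (n * Real.exp (-(r : ℝ))) ≤ (12 * (1 + 100 * C0) + C0) * (κ βe + h) * n *
        Real.exp (-(r + 1 / (20 * C0) * τ / κ βe)) := by
    intro h τ r n
    have h1 := hpre h
    have h2 := hrate τ
    have h3 : (0 : ℝ) ≤ h := Nat.cast_nonneg h
    have h4 : (0 : ℝ) ≤ h + 1 + 100 * ms := by positivity
    have h5 : 12 * ((h + 1 + 100 * (ms : ℝ)) * Pool.Agent.Q295.YM.qq ms ^ τ) ≤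
        (12 * (1 + 100 * C0) + C0) * (κ βe + h) * Real.exp (-(1 / (20 * C0) * τ / κ βe)) := by
      have h6 := mul_le_mul h1 h2 (pow_pos (Pool.Agent.Q295.YM.qq_pos ms) _).le
        (by positivity : (0 : ℝ) ≤ (1 + 100 * C0) * (κ βe + h))
      have h7 : 0 ≤ C0 * (κ βe + h) * Real.exp (-(1 / (20 * C0) * τ / κ βe)) := by positivity
      nlinarith
    refine (mul_le_mul_of_nonneg_right h5 (by positivity)).trans (le_of_eq ?_)
    have e1 : Real.exp (-(r + 1 / (20 * C0) * τ / κ βe)) =
        Real.exp (-(1 / (20 * C0) * τ / κ βe)) * Real.exp (-(r : ℝ)) := by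
      rw [← Real.exp_add]; congr 1; ring
    rw [e1]; ring
  refine ⟨fun a b Λ F₁ F₂ A₁ A₂ hab h1 h2 hm1 hm2 hb1 hb2 hA1 hA2 p h τ r hap hA => ?_, ?_⟩
  · simp only [expect_eq]
    exact (Pool.Agent.Q295.YM.cov_region hP hab (ob h1 hm1 hb1) (ob h2 hm2 hb2)
      (fun l hl => inside_iff.1 (hA1 l hl)) (fun l hl => inside_iff.1 (hA2 l hl)) hap hA.first
      hA.second hA.space).trans (hcov h τ r A₁.card)
  obtain ⟨ν, hν⟩ := Pool.Agent.Q295.YM.exists_Inf hP
  have hprob := hν.prob
  refine ⟨ν, hprob, ?_, ?_, ?_, ?_, ?_⟩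
  · intro F A hF hFc hF1 p h τ r a b Λ hw hd ha hb
    rw [expect_eq]
    refine (hν.conv F A (ob hF hFc.measurable hF1) hFc p h τ r a b Λ (inTime_iff.1 hw)
      (deep_iff.1 hd) ha hb).trans ?_
    unfold Pool.Agent.Q295.YM.err
    have h1 := hpre h
    have h2 := hrate τ
    have h3 : (0 : ℝ) ≤ h := Nat.cast_nonneg h
    have h4 : 8 * Pool.Agent.Q295.YM.qq ms ^ τ + 4 * Real.exp (-(r : ℝ)) ≤
        8 * (Real.exp (-(1 / (20 * C0) * τ / κ βe)) + Real.exp (-(r : ℝ))) := by
      have := Real.exp_pos (-(r : ℝ))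
      linarith
    have h5 : 0 ≤ 8 * Pool.Agent.Q295.YM.qq ms ^ τ + 4 * Real.exp (-(r : ℝ)) := by
      have := pow_pos (Pool.Agent.Q295.YM.qq_pos ms) τ
      positivity
    have h6 : (A.card : ℝ) * (h + 1 + 100 * ms) ≤ A.card * ((1 + 100 * C0) * (κ βe + h)) :=
      mul_le_mul_of_nonneg_left h1 (by positivity)
    refine (mul_le_mul h6 h4 h5 (by positivity)).trans ?_
    have h7 : 0 ≤ (4 * (1 + 100 * C0) + C0) * ((κ βe + h) * A.card *
        (Real.exp (-(1 / (20 * C0) * τ / κ βe)) + Real.exp (-(r : ℝ)))) := by positivity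
    nlinarith
  · intro F A hF hFc v
    exact hν.shiftL hP (lo hF hFc) v
  · intro F A hF hFc hA
    exact hν.rpL hP (lo hF hFc) hA
  · intro F₁ F₂ A₁ A₂ h1 h2 hc1 hc2 hb1 hb2 p h τ r hA
    exact (hν.cov hP (ob h1 hc1.measurable hb1) (ob h2 hc2.measurable hb2) hc1 hc2 hA.first
      hA.second hA.space).trans (hcov h τ r A₁.card)
  · intro F A hF hFc hA t
    refine (hν.gap hP (lo hF hFc) hA t).trans ?_
    have e1 : 1 / (20 * C0) / κ βe * (t : ℝ) = 1 / (20 * C0) * t / κ βe := by ring
    rw [e1]
    refine mul_le_mul_of_nonneg_right (hrate t) ?_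
    have h1 := hν.Bf_nonneg hP (lo hF hFc) hA
    unfold Pool.Agent.Q295.YM.Inf.Bf at h1
    rw [pow_two]
    exact h1

end Pool.Agent.Results.MP_7f377f_mp.ElectricAxis
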