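import Mathlib
import Pool.Agent.Results.MP_7f377f_mp.WilsonLoopsWeakCoupling
import Pool.Agent.Q235.EM.Net

/-!
# Lattice Yang-Mills theory: the energy-momentum spectrum at weak coupling

Wilson's lattice gauge theory on `ℤ^d`, `d = D + 1 ≥ 3`, with gauge group an arbitrary closed subgroup
`G` of `U(N)` of positive dimension, at the inverse coupling `β`, in its infinite volume limits. The
energy-momentum measure of a gauge invariant observable `F` of the time slice `0` is the joint
spectral measure, in the vector of `F`, of the transfer matrix `T = exp (-H)` and of the space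
translations `U_j = exp (i P_j)`: the finite measure `ρ` on the set of all `(λ, z)` with `0 ≤ λ ≤ 1` and
`|z_j| = 1`, such that the correlation of `F` with its translate by `t ≥ 0` units of time and by
`x ∈ ℤ^D` in space is `∫ λ ^ t ∏_j z_j ^ x_j dρ`. It exists for all observables.

A free lattice photon of momentum `p` has the energy `ω(p)` with
`cosh ω(p) = 1 + ∑_j (1 - cos p_j)`. The energies and momenta of the states of any number of photons
fill the lattice cone `E ≥ ω(p)`. The theorem: for every `ε > 0`, for all large `β`, in every infinite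
volume limit, and for all `(E, p)` in the lattice cone with `E ≤ 1 / ε`, there is a local gauge
invariant observable `F` of the time slice `0`, of mean zero and variance one, whose
energy-momentum measure is concentrated up to `ε` in the `ε`-neighbourhood of `(E, p)`. So at weak
coupling the spectrum of energy and momentum on the complement of the vacuum is `ε`-dense in the
whole lattice cone, not only near the origin.
-/

open MeasureTheory Matrix Filter ComplexConjugate
open scoped Matrix.Norms.Frobenius Topology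

namespace Pool.Agent.Results.MP_7f377f_mp.EnergyMomentumSpectrum

open Pool.Agent.Results.MP_7f377f_mp.WilsonLoopsWeakCoupling

noncomputable section

variable {N n d D : ℕ} {G : Subgroup (UU N)}

/-- The gauge transformation of the link variables of the lattice `ℤ^d`. -/
def gauge (γ : (Fin d → ℤ) → G) (V : LinkZ d → G) : LinkZ d → G :=
  fun e => γ e.1 * V e * (γ (e.1 + Pi.single e.2 1))⁻¹

/-- The configuration moved by `t` units of time, the last coordinate, and by the vector `x` in
space. -/
def move (t : ℤ) (x : Fin D → ℤ) (V : LinkZ (D + 1) → G) : LinkZ (D + 1) → G :=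
  fun e => V (e.1 + Fin.snoc x t, e.2)

/-- The local gauge invariant observables of the time slice `0`: the continuous gauge invariant
functions of finitely many link variables in the time slice `0`. -/
structure IsObs (F : (LinkZ (D + 1) → G) → ℂ) : Prop where
  cont : Continuous F
  inv : ∀ γ V, F (gauge γ V) = F V
  dep : ∃ R : ℕ, ∀ V V' : LinkZ (D + 1) → G, (∀ e : LinkZ (D + 1), e.1 (Fin.last D) = 0 →
    e.2 ≠ Fin.last D → (∀ i, |e.1 i| ≤ R) → V e = V' e) → F V = F V'

/-- `ρ` is the energy-momentum measure of the observable `F` in the theory `ν`: `λ = exp (-E)` and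
`z_j = exp (i p_j)`. -/
structure IsEM [MeasurableSpace G] (ν : Measure (LinkZ (D + 1) → G)) (F : (LinkZ (D + 1) → G) → ℂ)
    (ρ : Measure (ℝ × (Fin D → ℂ))) : Prop where
  fin : IsFiniteMeasure ρ
  supp : ∀ᵐ q ∂ρ, 0 ≤ q.1 ∧ q.1 ≤ 1 ∧ ∀ j, ‖q.2 j‖ = 1
  rep : ∀ (t : ℕ) (x : Fin D → ℤ), ∫ V, conj (F V) * F (move t x V) ∂ν =
    ∫ q, (q.1 : ℂ) ^ t * ∏ j, q.2 j ^ x j ∂ρ

open Pool.Agent.Q235

lemma IsObs.tz {F : (LinkZ (D + 1) → G) → ℂ} (h : IsObs F) : EM.TZ F where
  cont := h.cont
  inv := h.inv
  dep V V' hV := by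
    obtain ⟨R, hR⟩ := h.dep
    exact hR V V' fun e h1 h2 _ => hV e h1 h2

lemma IsObs.of {F : (LinkZ (D + 1) → G) → ℂ} (h : EM.TZ F) (h' : EM.Loc F) : IsObs F where
  cont := h.cont
  inv := h.inv
  dep := by
    classical
    obtain ⟨R, hR⟩ := h'
    refine ⟨R, fun V V' hV => ?_⟩
    obtain ⟨W, hW⟩ : ∃ W : LinkZ (D + 1) → G, W = fun e =>
      if e.1 (Fin.last D) = 0 ∧ e.2 ≠ Fin.last D then V' e else V e := ⟨_, rfl⟩
    have h1 : F V' = F W := h.dep V' W fun e he he' => by
      rw [hW]
      simp only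
      rw [if_pos ⟨he, he'⟩]
    have h2 : F V = F W := hR V W fun e he => by
      rw [hW]
      simp only
      split_ifs with h3
      · exact hV e h3.1 h3.2 he
      · rfl
    rw [h1, h2]

theorem result {N n D : ℕ} (hD : 2 ≤ D) (hn : 1 ≤ n) (G : Subgroup (UU N))
    (hG : IsClosed (G : Set (UU N))) [MeasurableSpace G] [BorelSpace G] (μ : Measure G)
    [IsProbabilityMeasure μ] [μ.IsHaarMeasure] (B : LieBasis G n) {ε : ℝ} (hε : 0 < ε) :
    ∃ β₀ : ℝ, ∀ β : ℝ, β₀ ≤ β →
      (∃ ν : Measure (LinkZ (D + 1) → G), IsInfVol μ β ν) ∧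
      ∀ ν : Measure (LinkZ (D + 1) → G), IsInfVol μ β ν →
        (∀ F, IsObs F → ∃ ρ, IsEM ν F ρ) ∧
        ∀ (E : ℝ) (p : Fin D → ℝ), 0 ≤ E → E ≤ 1 / ε →
          1 + ∑ j, (1 - Real.cos (p j)) ≤ Real.cosh E →
          ∃ F, IsObs F ∧ ∫ V, F V ∂ν = 0 ∧ ∫ V, ‖F V‖ ^ 2 ∂ν = 1 ∧
            ∀ ρ, IsEM ν F ρ → 1 - ε ≤ ρ.real {q | Real.exp (-(E + ε)) < q.1 ∧
              q.1 < Real.exp (-(E - ε)) ∧
              ∀ j, ‖q.2 j - Complex.exp (p j * Complex.I)‖ < ε} := by
  have : CompactSpace G := by
    have h1 : IsCompact (G : Set (UU N)) := hG.isCompact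
    exact isCompact_iff_compactSpace.1 h1
  have h00 : SecondCountableTopology (UU N) := TopologicalSpace.Subtype.secondCountableTopology _
  have : SecondCountableTopology G := TopologicalSpace.Subtype.secondCountableTopology _
  -- the parameters
  have hexp : Real.exp (-ε) < 1 := by
    rw [Real.exp_lt_one_iff]
    linarith
  obtain ⟨r, hr⟩ : ∃ r, r = Real.exp (-(1 / ε)) := ⟨_, rfl⟩
  have hr0 : 0 < r := by rw [hr]; exact Real.exp_pos _
  obtain ⟨δ, hδ⟩ : ∃ δ, δ = min ε (r * (1 - Real.exp (-ε))) := ⟨_, rfl⟩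
  have hδ0 : 0 < δ := by
    rw [hδ]
    have : 0 < 1 - Real.exp (-ε) := by linarith
    positivity
  have hδ1 : δ ≤ ε := by rw [hδ]; exact min_le_left _ _
  have hδ2 : δ ≤ r * (1 - Real.exp (-ε)) := by rw [hδ]; exact min_le_right _ _
  obtain ⟨β₀, h⟩ := EM.net μ B hD hG (by omega) hr0 hδ0
  refine ⟨max β₀ 0, fun β hβ => ⟨exists_infVol μ B β, fun ν hν => ⟨fun F hF => ?_,
    fun E p hE hE1 hEp => ?_⟩⟩⟩
  · obtain ⟨ρ, h1, h2, h3⟩ := EM.exists_em μ B ((le_max_right _ _).trans hβ) hν hF.tz
    exact ⟨ρ, h1, h2, h3⟩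
  · have hnorm : ∀ j, ‖Complex.exp (p j * Complex.I)‖ = 1 := fun j =>
      Complex.norm_exp_ofReal_mul_I _
    have hml : EM.lam (fun j => Complex.exp (p j * Complex.I)) =
        2 * ∑ j, (1 - Real.cos (p j)) := by
      unfold EM.lam EM.ml
      rw [Finset.mul_sum]
      refine Finset.sum_congr rfl fun j _ => ?_
      rw [← Complex.normSq_eq_norm_sq, Complex.normSq_sub, Complex.normSq_eq_norm_sq,
        Complex.normSq_eq_norm_sq, hnorm, one_mul, Complex.conj_re, Complex.exp_ofReal_mul_I_re,
        norm_one]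
      ring
    have hb : ((Real.exp (-E), fun j => Complex.exp (p j * Complex.I)) : ℝ × (Fin D → ℂ)) ∈
        EM.cone D r := by
      refine ⟨?_, ?_, hnorm, ?_⟩
      · rw [hr]
        exact Real.exp_le_exp.2 (by linarith)
      · show Real.exp (-E) ≤ 1
        rw [Real.exp_le_one_iff]
        linarith
      · show Real.exp (-E) * (2 + EM.lam fun j => Complex.exp (p j * Complex.I)) ≤
          Real.exp (-E) ^ 2 + 1
        rw [hml]
        rw [Real.cosh_eq] at hEp
        have h1 : Real.exp (-E) * Real.exp E = 1 := by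
          rw [← Real.exp_add, neg_add_cancel, Real.exp_zero]
        have h2 : 0 < Real.exp (-E) := Real.exp_pos _
        nlinarith
    obtain ⟨F, k1, k2, k3, k4, k5⟩ := h β ((le_max_left _ _).trans hβ) ν hν _ hb
    have hprob := hν.prob
    have hnF : ∫ V, ‖F V‖ ^ 2 ∂ν = 1 := by
      have h1 : EM.two ν F 0 0 = ∫ V, ((‖F V‖ ^ 2 : ℝ) : ℂ) ∂ν := by
        unfold EM.two
        refine integral_congr_ae (Filter.Eventually.of_forall fun V => ?_)
        show conj (F V) * F (EM.move 0 0 V) = ((‖F V‖ ^ 2 : ℝ) : ℂ)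
        rw [EM.move_zero, ← Complex.normSq_eq_norm_sq, Complex.normSq_eq_conj_mul_self]
      have h2 : ∫ V, ((‖F V‖ ^ 2 : ℝ) : ℂ) ∂ν = ((∫ V, ‖F V‖ ^ 2 ∂ν : ℝ) : ℂ) := integral_ofReal
      rw [k4, h2] at h1
      exact_mod_cast h1.symm
    refine ⟨F, IsObs.of k1 k2, k3, hnF, fun ρ hρ => ?_⟩
    have hfin := hρ.fin
    have h1 := k5 ρ hρ.fin hρ.supp hρ.rep
    -- the total mass
    have hmass : ρ.real Set.univ = 1 := by
      have h2 := hρ.rep 0 0
      have h3 : ∫ V, conj (F V) * F (move ((0 : ℕ) : ℤ) 0 V) ∂ν = 1 := k4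
      rw [h3] at h2
      simp at h2
      exact_mod_cast h2.symm
    have hsub : (Set.univ : Set (ℝ × (Fin D → ℂ))) ⊆ {q | Real.exp (-(E + ε)) < q.1 ∧
        q.1 < Real.exp (-(E - ε)) ∧ ∀ j, ‖q.2 j - Complex.exp (p j * Complex.I)‖ < ε} ∪
        {q | δ ≤ |q.1 - Real.exp (-E)| ∨ ∃ l, δ ≤ ‖q.2 l - Complex.exp (p l * Complex.I)‖} := by
      intro q _
      by_cases hq : δ ≤ |q.1 - Real.exp (-E)| ∨
        ∃ l, δ ≤ ‖q.2 l - Complex.exp (p l * Complex.I)‖
      · exact Or.inr hq
      · left
        rw [not_or] at hq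
        obtain ⟨hq1, hq2⟩ := hq
        rw [not_le, abs_lt] at hq1
        have hE0 : r ≤ Real.exp (-E) := by
          rw [hr]
          exact Real.exp_le_exp.2 (by linarith)
        have hx : 0 < 1 - Real.exp (-ε) := by linarith
        have h4 : δ ≤ Real.exp (-E) * (1 - Real.exp (-ε)) :=
          hδ2.trans (mul_le_mul_of_nonneg_right hE0 hx.le)
        have h5 : Real.exp (-(E + ε)) = Real.exp (-E) * Real.exp (-ε) := by
          rw [← Real.exp_add]
          congr 1
          ring
        have h6 : Real.exp (-(E - ε)) = Real.exp (-E) * Real.exp ε := by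
          rw [← Real.exp_add]
          congr 1
          ring
        have h7 : Real.exp (-ε) * Real.exp ε = 1 := by
          rw [← Real.exp_add, neg_add_cancel, Real.exp_zero]
        have h8 : 1 - Real.exp (-ε) ≤ Real.exp ε - 1 := by
          have h9 := Real.exp_pos ε
          have h10 := Real.exp_pos (-ε)
          nlinarith [mul_self_nonneg (Real.exp ε - 1)]
        have h9 := Real.exp_pos (-E)
        refine ⟨?_, ?_, fun j => ?_⟩
        · rw [h5]
          linarith
        · rw [h6]
          nlinarith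
        · have := not_exists.1 hq2 j
          rw [not_le] at this
          exact this.trans_le hδ1
    have h2 := (measureReal_mono (μ := ρ) hsub).trans (measureReal_union_le _ _)
    rw [hmass] at h2
    linarith

end

end Pool.Agent.Results.MP_7f377f_mp.EnergyMomentumSpectrum
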