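import Pool.Agent.Q291.HYM.Bridge
import Pool.Agent.Q291.MK.Thm2
import Pool.Agent.Q291.MK.Base3

/-!
# The scaling limit of the hierarchical (Migdal-Kadanoff) SU(2) Yang-Mills theory in dimension four

The model. `SU2` is the group of unit quaternions (half of the trace is the real part, `tr`),
`haar` its normalised Haar measure. A cell of level `0` is a plaquette with the Wilson weight
`bare β x = exp (β * tr x)` of its holonomy `x`. A cell of level `n + 1` has the boundary of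
a square of side `2 ^ (n + 1)` and consists of four sheets with this common boundary; each sheet is
a square of `2 × 2` cells of level `n` which share the four interior links of the sheet. This is the
hierarchical lattice of dimension four on which the Migdal-Kadanoff recursion with scale factor `2`
is exact (Migdal 1975, Kadanoff 1976). All definitions are in `Pool.Agent.Q291.HYM.Words`:

* `sheet f1 f2 f3 f4 a1 a2 a3 a4` is the integral over the four interior links `v1, ..., v4` of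
  `f1 (v1 a1 v2⁻¹) f2 (v2 a2 v3⁻¹) f3 (v3 a3 v4⁻¹) f4 (v4 a4 v1⁻¹)`; the first part of the theorem
  says that it depends only on the boundary holonomy `a1 a2 a3 a4`;
* `part w n` is the partition function of a cell of level `n` with the bare weight `w` as a function
  of its boundary holonomy: `part w 0 = w`,
  `part w (n + 1) x = (sheet (part w n) (part w n) (part w n) (part w n) x 1 1 1) ^ 4`;
  `nor w n x = part w n x / part w n 1`;
* `Ren f m` says that `m` is the renormalised coupling of the weight `f`, the curvature of its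
  action at the identity: `(1 - f x / f 1) / (1 - tr x)` tends to `m` as `x` tends to `1` (for
  `bare β` it is `β`);
* `wil f` is the expectation of `tr` under the density proportional to `f` (the Wilson loop);
* `cex f φ n x` is the conditional expectation of the observable `φ` of one cell of level `0` given
  the boundary holonomy `x` of the cell of level `n` which contains it, if the cells of level `i`
  have the weights `f i`; `tr1`, `tr2` are the truncated correlations of two observables of cells of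
  level `0` which separate at level `n` (in one sheet, in two sheets), given the boundary holonomy
  of the cell of level `n + 1 + N`.

The theorem. The renormalised trajectories `F m k` (`m ≥ M` the renormalised coupling at scale `1`,
`2 ^ k` the scale, `k : ℤ`) are the limits of the theory with `N` steps between the lattice spacing
and scale one, uniformly on the group and at all scales, for all sequences of bare couplings with
renormalised coupling tending to `m`; the limit is the same for all bare weights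
`poly p n = ∏ (1 - p i + p i * (1 + tr) / 2)`. Asymptotic freedom in the ultraviolet with the running
coupling `b (-j) = j + (4/15) log (j + 1) + O(1)`, a string tension `σ m > 0` (area law) with its
dependence on the coupling up to a bounded factor, and exponential decay in the area in units of the
string tension of the expectations, of the influence of the boundary and of the truncated
correlations, with constants which do not depend on the coupling.

Lemmas by helpers 280, 222, 210, 150, 149, 284, 146, 61, 289, 237, 65, 54, 275, 251, 234, 52, 91,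
224, 2, 121, 176, 14, 241, 299, 174, 151.
-/

namespace Pool.Agent.Results.MP_7f377f_mp.HierarchicalYangMills

open Filter Topology MeasureTheory Pool.Agent.Q291 Pool.Agent.Q291.HYM

theorem result :
    (∀ f1 f2 f3 f4 : SU2 → ℝ, Continuous f1 → Continuous f2 → Continuous f3 → Continuous f4 →
      Cf f1 → Cf f2 → Cf f3 → Cf f4 → ∀ a1 a2 a3 a4 : SU2,
      sheet f1 f2 f3 f4 a1 a2 a3 a4 = sheet f1 f2 f3 f4 (a1 * a2 * a3 * a4) 1 1 1) ∧
    ∃ (M C0 c0 : ℝ) (F : ℝ → ℤ → SU2 → ℝ) (σ : ℝ → ℝ), 0 < M ∧ 0 < C0 ∧ 0 < c0 ∧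
    (∀ m : ℝ, M ≤ m →
      (∀ N : ℕ, ∃ β : ℝ, 0 < β ∧ Ren (part (bare β) N) m ∧
        ∀ β' : ℝ, 0 < β' → Ren (part (bare β') N) m → β' = β) ∧
      (∀ (ν : ℕ → ℕ) (β b : ℕ → ℝ), Tendsto ν atTop atTop → (∀ l, 0 < β l) →
        (∀ l, Ren (part (bare (β l)) (ν l)) (b l)) → Tendsto b atTop (𝓝 m) → ∀ k : ℤ,
        TendstoUniformly (fun l => nor (bare (β l)) ((ν l + k).toNat)) (F m k) atTop) ∧
      (∀ (ν : ℕ → ℕ) (β b : ℕ → ℝ), Tendsto ν atTop atTop → (∀ l, 0 < β l) →
        (∀ l, Ren (part (bare (β l)) (ν l)) (b l)) → Tendsto b atTop (𝓝 m) →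
        ∀ φ : SU2 → ℝ, Continuous φ → Cf φ → ∀ (k : ℤ) (n : ℕ),
        TendstoUniformly (fun l => cex (fun i => part (bare (β l)) ((ν l + (k + i)).toNat)) φ n)
          (cex (fun i => F m (k + i)) φ n) atTop) ∧
      (∀ (ν n : ℕ → ℕ) (p : ℕ → ℕ → ℝ) (b : ℕ → ℝ), Tendsto ν atTop atTop →
        (∀ l i, 0 ≤ p l i ∧ p l i ≤ 1) →
        (∀ l, Ren (part (poly (p l) (n l)) (ν l)) (b l)) → Tendsto b atTop (𝓝 m) → ∀ k : ℤ,
        TendstoUniformly (fun l => nor (poly (p l) (n l)) ((ν l + k).toNat)) (F m k) atTop) ∧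
      (∀ k : ℤ, Continuous (F m k) ∧ Cf (F m k) ∧ F m k 1 = 1 ∧
        (∀ x, 0 ≤ F m k x ∧ F m k x ≤ 1) ∧ (∀ x, 0 < (1 + tr x) / 2 → 0 < F m k x) ∧
        (∀ x, F m (k + 1) x = sheet (F m k) (F m k) (F m k) (F m k) x 1 1 1 ^ 4 /
          sheet (F m k) (F m k) (F m k) (F m k) 1 1 1 1 ^ 4) ∧
        0 < wil (F m k) ∧ wil (F m k) < 1) ∧
      (0 < σ m ∧ Tendsto (fun n : ℕ => -Real.log (wil (F m n)) / 4 ^ n) atTop (𝓝 (σ m)) ∧
        |Real.log (σ m) + 2 * Real.log 2 * m - 8 / 15 * Real.log 2 * Real.log m| ≤ C0) ∧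
      (∀ (k : ℤ) (N : ℕ) (x : SU2),
        |cex (fun i => F m (k + i)) tr (N + 1) x| ≤
          C0 * Real.exp (-c0 * σ m * (4:ℝ) ^ k)) ∧
      (∀ φ : SU2 → ℝ, Continuous φ → Cf φ → (∀ x, |φ x| ≤ 1) → ∀ k : ℤ, ∃ e : ℝ,
        ∀ (n : ℕ) (x : SU2), |cex (fun i => F m (k + i)) φ (n + 1) x - e| ≤
          C0 * Real.exp (-c0 * σ m * (4:ℝ) ^ (k + n))) ∧
      (∀ φ ψ : SU2 → ℝ, Continuous φ → Continuous ψ → Cf φ → Cf ψ → (∀ x, |φ x| ≤ 1) →
        (∀ x, |ψ x| ≤ 1) → ∀ (k : ℤ) (n N : ℕ) (x : SU2),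
        |tr1 (fun i => F m (k + i)) φ ψ n N x| ≤ C0 * Real.exp (-c0 * σ m * (4:ℝ) ^ (k + n)) ∧
        |tr2 (fun i => F m (k + i)) φ ψ n N x| ≤ C0 * Real.exp (-c0 * σ m * (4:ℝ) ^ (k + n))) ∧
      ∃ (C : ℝ) (b : ℤ → ℝ), 0 < C ∧ b 0 = m ∧ (∀ k, Ren (F m k) (b k)) ∧
        (∀ (N : ℕ) (β : ℝ), 0 < β → Ren (part (bare β) N) m →
          |β - N - 4 / 15 * Real.log (N + 1)| ≤ C) ∧
        (∀ j : ℕ, |b (-j) - j - 4 / 15 * Real.log (j + 1)| ≤ C) ∧
        (∀ k j : ℤ, k ≤ 0 → F (b k) j = F m (j + k)) ∧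
        (∀ (j : ℕ) (x : SU2), |F m (-j) x - ((1 + tr x) / 2) ^ (2 * b (-j))| ≤
          C * (1 + Real.log (j + 1)) / √((j:ℝ) + 1)) ∧
        (∀ j : ℕ, |1 - wil (F m (-j)) - 3 / (2 * b (-j))| ≤ C / (((j:ℝ) + 1) * √((j:ℝ) + 1)))) ∧
    (∀ w : ℝ, 0 < w → w < 1 → (∀ N : ℕ, ∃ β : ℝ, 0 < β ∧ wil (part (bare β) N) = w) ∧
      ∀ (ν : ℕ → ℕ) (β : ℕ → ℝ), Tendsto ν atTop atTop → (∀ l, 0 < β l) →
      (∀ l, wil (part (bare (β l)) (ν l)) = w) → ∃ (θ : ℕ → ℕ) (m : ℝ) (k0 : ℤ), StrictMono θ ∧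
      M ≤ m ∧ wil (F m k0) = w ∧ ∀ k : ℤ,
        TendstoUniformly (fun l => nor (bare (β (θ l))) ((ν (θ l) + k).toNat)) (F m (k + k0)) atTop) ∧
    (∃ w0 : ℝ, w0 < 1 ∧ ∀ w : ℝ, w0 < w → w < 1 → ∃ m : ℝ, M ≤ m ∧ wil (F m 0) = w ∧
      ∀ (ν : ℕ → ℕ) (β : ℕ → ℝ), Tendsto ν atTop atTop → (∀ l, 0 < β l) →
      Tendsto (fun l => wil (part (bare (β l)) (ν l))) atTop (𝓝 w) → ∀ k : ℤ,
        TendstoUniformly (fun l => nor (bare (β l)) ((ν l + k).toNat)) (F m k) atTop) := by
  simp only [nor_eq, poly_eq, part_eq, cex_eq, tr1_eq, tr2_eq, sheet_eq, wil_eq, Ren_eq, bare_eq,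
    Cf_eq, tr_eq]
  exact ⟨fun _ _ _ _ h1 h2 h3 h4 c1 c2 c3 c4 a1 a2 a3 a4 =>
    MK.sheet_hol h1 h2 h3 h4 c1 c2 c3 c4 a1 a2 a3 a4,
    MK.thmD MK.bCA3 MK.bPROP MK.bPR2 MK.bPKG MK.bSG3 MK.bMG3 MK.bAV MK.bONE MK.bRE0 MK.bCOR MK.bPB
      MK.bCC MK.bCW⟩

end Pool.Agent.Results.MP_7f377f_mp.HierarchicalYangMills
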